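import Pool.Agent.X268.AL.Fin

/-!
# Derived invariance of Hodge numbers: Albanese dimension

Let `X` and `Y` be derived equivalent smooth projective complex varieties of dimension `n ≥ 2`.  As in
`MP_abca3a_ag.SupportLoci`:

* `Irr`: the group `G = Pic⁰(X)`, its abelian subvarieties, and the dimensions `h i α` of
  `H^i(X, ω_X ⊗ α)`, whose loci `V^i(ω_X) = {α | h i α ≠ 0}` are finite unions of translates of abelian
  subvarieties by torsion points (Green, Lazarsfeld; Simpson);
* `Rouquier`: the restriction `F : G₀ ≃ H₀` of Rouquier's isomorphism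
  `Aut⁰(X) × Pic⁰(X) ≃ Aut⁰(Y) × Pic⁰(Y)` to the line bundles which it sends to line bundles;
* `CoversFM`: for a torsion line bundle `α` in `G₀` the cyclic étale covers `X_α` and `Y_{F α}` are
  derived equivalent, so that their cohomologies are related by an isometry of the Mukai pairings
  (`FM`), and the numbers `h^{1,0}` agree (Popa, Schnell); `h^{n,i}(X_α) = ∑ h^i(ω_X ⊗ α^k)`.
* `ChiConst`: the Euler characteristic of `ω_X ⊗ α` does not depend on `α`.
* `Generic`: for some abelian subvariety `B ≠ 0` of `G₀` and `3 ≤ i ≤ n - 2`, the locus `V^i(ω_X)`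
  does not contain `B` and `V^i(ω_Y)` does not contain `F(B)`.  By the generic vanishing theorem of
  Green and Lazarsfeld this holds if the Albanese dimensions of `X` and `Y` are at least `n - 2`,
  `Pic⁰(X) ≠ 0` and `G₀ = Pic⁰(X)`, for example if `X` has no vector fields.

Theorem.
1. Then `χ(ω_X) = χ(ω_Y)`.
2. For `n = 5` all the numbers `h^{0,q}` and all the Hodge numbers `h^{p,q}`, `p ≠ q`, of `X` and `Y`
   agree, and `24 (h^{1,1}(X) - h^{1,1}(Y))` is the difference of the Chern numbers `c₁ c₄`.

So the numbers `h^{p,q}`, `p ≠ q`, are derived invariants of the fivefolds without vector fields of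
Albanese dimension at least three.  (For maximal Albanese dimension the invariance of `h^{0,q}` is a
theorem of Caucci and Pareschi, and that of `χ(ω_X)` is due to Lombardi, also for Albanese dimension
`n - 1` under some conditions.)

Idea: by the inertia of the Mukai pairing the numbers `h^{n,i}` with `i ≤ 2` or `i ≥ n - 1` agree.  So
`χ(ω_X) - χ(ω_Y)` is the alternating sum of the differences of the `h^{n,i}`, `3 ≤ i ≤ n - 2`.  The same
holds for the covers `X_α` and `Y_{F α}` of degree `p`, for a generic point `α` of prime order `p`.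
Their numbers `h^{n,i}`, `3 ≤ i ≤ n - 2`, are the same as those of `X` and `Y`, but their Euler
characteristics are multiplied by `p`.  So the difference is zero.
-/

set_option autoImplicit false

namespace Pool.Agent.Results.MP_b4fe5e_ag.AlbaneseDimension

open Pool.Agent.W539.DI Pool.Agent.X268.VL Pool.Agent.X268.AL Pool.Agent.X268.SC

theorem result (X Y : Irr) (ρ : Rouquier X Y) (n : ℕ) (hn : 2 ≤ n) (hX : ChiConst X n)
    (hY : ChiConst Y n) (hc : CoversFM ρ n) (B : AddSubgroup X.G) (hB : Generic ρ n B) :
    chi X n 0 = chi Y n 0 ∧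
    (n = 5 → (∀ i : ℕ, X.h i 0 = Y.h i 0) ∧
      ∀ K L : KRing 5, CoverOf X 0 K → CoverOf Y 0 L → Nonempty (FM K L) →
        (∀ p q : ℤ, p ≠ q → K.h p q = L.h p q) ∧
        ∀ C D : ℤ, LibgoberWood K C → LibgoberWood L D →
          24 * ((K.h 1 1 : ℤ) - L.h 1 1) = C - D) := by
  have hχ := chi_eq hn hX hY hc hB
  refine ⟨hχ, ?_⟩
  rintro rfl
  have hi := five_h hc hχ
  refine ⟨hi, ?_⟩
  rintro K L hK hL ⟨Φ⟩
  have h0 : ∀ q : ℤ, K.h 0 q = L.h 0 q := zero_of_top fun q => by
    rw [base hK, base hL, hi]
  exact ⟨five_off Φ h0, fun C D hC hD => five_diag Φ h0 C D hC hD⟩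

end Pool.Agent.Results.MP_b4fe5e_ag.AlbaneseDimension
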