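import Pool.Agent.X308.R.Final

/-!
# Approximate derived invariance of Hodge numbers implies derived invariance

The class `C` of the theorem: smooth projective complex varieties, with derived equivalence as the
relation `rel` (or any subclass closed under products which contains a curve).
-/

set_option autoImplicit false

namespace Pool.Agent.Results.MP_b4fe5e_ag.ApproximateInvariance

open Pool.Agent.X308.R

/-- **Theorem.** The Hodge numbers are invariant under the relation if and only if, in a sequence
of dimensions `d t → ∞`, they are invariant up to factors `K t = exp (o (d t))` and shifts of the
degrees by at most `r t = o (d t)`. -/
theorem result {C : Type} (L : HodgeClass C) : L.Invariant ↔ L.ApproximatelyInvariant :=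
  L.invariant_iff

end Pool.Agent.Results.MP_b4fe5e_ag.ApproximateInvariance
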