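import Pool.Agent.X268.DH.Except

/-!
# Derived invariance of Hodge numbers: relative inertia

Let `f : X → S` and `g : Y → S` be morphisms from smooth projective complex varieties of dimension
`n` to a projective variety, and suppose that there is an `S`-linear equivalence `D(X) ≃ D(Y)` (a
Fourier-Mukai transform whose kernel is supported on `X ×_S Y`).  Let `l` be the inverse image of an
ample class of `S`.  Examples:

* the canonical class of `X` is semiample and `f` is the pluricanonical morphism, `l = -c₁`: every
  equivalence commutes with the Serre functors, hence with the product with `c₁` on cohomology, and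
  the class `c₁` of `Y` is then semiample as well; the same with the anticanonical class, `l = c₁`;
* `X` has no vector fields and `f` is the Albanese morphism: every equivalence then identifies
  `Pic⁰(X)` with `Pic⁰(Y)` (Rouquier; Popa, Schnell), so its kernel is supported on the fibre product
  over the Albanese variety.

The linear map induced on cohomology commutes with the product with `l` and is an isometry for the
Mukai pairings.  The Jordan blocks of `l` compute the perverse cohomology of `f`: by the
decomposition theorem and the hard Lefschetz theorem for perverse sheaves the blocks of length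
`j + 1` starting in type `(p, q)` are the `l`-primitive classes of type `(p, q)` in
`H^{-j}(S, ᵖH^i(f_* ℂ[n]))` with `i = p + q + j - n`.  Let `mult j p q` be their number.  By the
relative hard Lefschetz theorem and the generalised Hodge-Riemann relations of de Cataldo and
Migliorini (the hypothesis `RelPol`), the hermitian form `⟨l ^ j x, bar y⟩` on the first vectors of
these blocks has a signature which can be computed, and which is invariant.

The result:

1. relations between the multiplicities `mult j p q` of `X` and `Y`;
2. if the multiplicities agree in the perverse degrees `p + q + j - n ≤ -3`, in particular if the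
   defects of semismallness of `f` and `g` are at most `2` (for example if all the fibres have
   dimension at most two), then all the Hodge numbers of `X` and `Y` agree, in any dimension `n`;
3. the same, for `n ≥ 5`, if the multiplicity `mult 0 1 1` (which counts in dimension five the
   divisors contracted to points) is not known to agree, but the Chern number `c₁ c_{n-1}` agrees
   and the formula of Libgober and Wood is used.  For pluricanonical morphisms the Chern number
   agrees by Toda's theorem on canonical divisors.  For fivefolds with semiample canonical class of
   Kodaira dimension at least three, all the multiplicities with `p + q + j ≤ 2` other than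
   `mult 0 1 1` vanish.
-/

namespace Pool.Agent.Results.MP_b4fe5e_ag.RelativeInertia

open Pool.Agent.X268.DH Finset

theorem result (n : ℕ) (X Y : Fib n) (hX : RelPol X) (hY : RelPol Y) (Φ : SFM X Y) :
    (∀ j a b : ℕ, a + b + j = n →
      (∑ i ∈ range (n + 1), mult X j (a - 1 - 2 * i) (b - 1 - 2 * i) =
        ∑ i ∈ range (n + 1), mult Y j (a - 1 - 2 * i) (b - 1 - 2 * i)) ∧
      (mult X j a b + 2 * ∑ i ∈ range (n + 1), mult X j (a - 2 - 2 * i) (b - 2 - 2 * i) =
        mult Y j a b + 2 * ∑ i ∈ range (n + 1), mult Y j (a - 2 - 2 * i) (b - 2 - 2 * i))) ∧
    (∀ j a b : ℕ, a + b + j + 1 = n →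
      ∑ i ∈ range (n + 1), mult X j (a - i) (b - i) =
        ∑ i ∈ range (n + 1), mult Y j (a - i) (b - i)) ∧
    ((∀ (j : ℕ) (p q : ℤ), p + q + j + 3 ≤ n → mult X j p q = mult Y j p q) →
      ∀ p q : ℤ, X.h p q = Y.h p q) ∧
    (5 ≤ n →
      (∀ (j : ℕ) (p q : ℤ), p + q + j + 3 ≤ n → ¬ (j = 0 ∧ p = 1 ∧ q = 1) →
        mult X j p q = mult Y j p q) →
      ∀ C : ℤ, LibgoberWood X C → LibgoberWood Y C → ∀ p q : ℤ, X.h p q = Y.h p q) := by
  refine ⟨fun j a b hab => ?_, fun j a b hab => ?_, fun h p q => hodge_of_low hX hY Φ h p q,
    fun hn h C hLX hLY p q => hodge_except hn hX hY Φ h C hLX hLY p q⟩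
  · have h' : (a : ℤ) + b + j = n := by exact_mod_cast hab
    exact relations hX hY Φ h' (by omega) (by omega)
  · have h' : (a : ℤ) + b + j + 1 = n := by exact_mod_cast hab
    exact relations_odd hX hY Φ h' (by omega)

end Pool.Agent.Results.MP_b4fe5e_ag.RelativeInertia
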