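import Pool.Agent.X268.SC.Tower

/-!
# Derived invariance of Hodge numbers: fivefolds with semiample canonical or anticanonical class

Let `X` and `Y` be derived equivalent smooth projective complex varieties of dimension `n`, and
suppose that a multiple of `K_X` (or of `-K_X`) is base point free.  The equivalence commutes with
the Serre functors and identifies the canonical rings and their actions on the derived categories.
So a multiple of `K_Y` (or of `-K_Y`) is base point free as well, both varieties have their (anti)
pluricanonical morphism `f : X → S`, `g : Y → S` onto the same variety `S`, and there is a `k(S)`-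
linear equivalence between the derived categories of the generic fibres (the quotients of `D(X)`
and `D(Y)` by the objects supported over proper closed subsets of `S`).  By Orlov's theorem it is
given by a kernel, and this kernel induces, over an open subset `U` of `S`, isomorphisms of
variations of Hodge structure between the even (odd) parts of `R f_* ℚ` and `R g_* ℚ`, which are
isometries for the relative Mukai pairings.  (The same for every `S`-linear equivalence.)

* `A` is the `ℚ`-algebra with involution such that the modules over `A` (which are subquotients of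
  those below) are the variations of Hodge structure over `U`.
* `V`, `V'` (`W`, `W'` for `Y`): the direct sums of the variations `R^i f_* ℚ`, twisted to the
  weights `0` and `1`, over all `i` of the parity of the dimension `d` of the fibres, and over all
  other `i`.  They are polarised Lefschetz modules `LefMod` of top degrees `2 c` and `2 c' + 1`,
  `{2 c, 2 c' + 1} = {d, d - 1}`.
* `LowIso`: `R^i f_* ℚ` and `R^i g_* ℚ` are isomorphic for `i ≤ d - 3`.  For `d ≤ 3` this holds
  trivially, for `d = 4` by the theorem of Popa and Schnell over the function field of `S`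
  (Achter, Casalaina-Martin, Vial).
* `DirectImages`: Kollár's theorems.  `H^q(X, ω_X)` is the direct sum of the `H^i(S, R^j f_* ω_X)`
  with `i + j = q`, and `R^j f_* ω_X` is determined by the variation `R^{d+j} f_* ℚ` over `U` (it is
  obtained from the canonical extension of the bottom piece of its Hodge filtration on a
  resolution of `S`).  So `h^{n,q}(X)` is a sum of numbers which only depend on the isomorphism
  classes of the variations `R^{d+j} f_* ℚ`.

The theorem:

1. `h^{0,q}(X) = h^{0,q}(Y)` for all `q`.  So the numbers `h^{0,q}` are derived invariants of the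
   varieties of any dimension `n` with semiample canonical (anticanonical) class of (anti) Kodaira
   dimension at least `n - 4`.
2. For `n = 5` all the Hodge numbers `h^{p,q}`, `p ≠ q`, of `X` and `Y` agree, and
   `24 (h^{1,1}(X) - h^{1,1}(Y))` is the difference of the Chern numbers `c₁ c₄`.  These agree for
   semiample `K` or `-K`: a general divisor `D` in `|m K_X|` and the corresponding divisor in
   `|m K_Y|` are smooth and derived equivalent (Toda), in particular have the same Euler
   characteristic, and the adjunction formula expresses `c₁ c_{n-1}(X)` by the Euler characteristic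
   and the number `c₁ c_{n-2}` of `D` (`Tower`).  So all the Hodge numbers agree.
   For torsion canonical class (Kodaira dimension `0`) this is the starting result
   `TorsionCanonicalFivefolds`; together, the Hodge numbers of fivefolds with semiample canonical or
   anticanonical class are derived invariants.
3. For `n = 6` the Hodge numbers `h^{p,q}` with `|p - q| ≥ 2` agree, and
   `h^{1,1}(X) - h^{1,1}(Y) = h^{2,1}(X) - h^{2,1}(Y)` if the numbers `c₁ c₅` agree; if this
   difference is zero, all the Hodge numbers agree.
-/

namespace Pool.Agent.Results.MP_b4fe5e_ag.SemiampleCanonicalClass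

open Pool.Agent.W539.DI Pool.Agent.X268.HS Pool.Agent.X268.SC

theorem result {A : Type} [Ring A] [Algebra ℚ A] [StarRing A] {c c' : ℕ}
    (V W : LefMod A (2 * c)) (V' W' : LefMod A (2 * c' + 1)) (pos : JointPos V W)
    (Φ : Isom V W) (φ' : V'.Iso W'.toLData) (low : LowIso V W (c - 2))
    (low' : LowIso V' W' (c' - 1)) (κ : Numbers A) :
    (∀ (n : ℕ) (X Y : KRing n), DirectImages κ V V' X → DirectImages κ W W' Y →
      ∀ q : ℤ, X.h 0 q = Y.h 0 q) ∧
    (∀ X Y : KRing 5, DirectImages κ V V' X → DirectImages κ W W' Y → Nonempty (FM X Y) →
      (∀ p q : ℤ, p ≠ q → X.h p q = Y.h p q) ∧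
      ∀ C D : ℤ, LibgoberWood X C → LibgoberWood Y D →
        24 * ((X.h 1 1 : ℤ) - Y.h 1 1) = C - D ∧
        ((∃ l, Tower l C ∧ Tower l D) → ∀ p q : ℤ, X.h p q = Y.h p q)) ∧
    (∀ X Y : KRing 6, DirectImages κ V V' X → DirectImages κ W W' Y → Nonempty (FM X Y) →
      (∀ p q : ℤ, p + 2 ≤ q ∨ q + 2 ≤ p → X.h p q = Y.h p q) ∧
      ∀ C D : ℤ, LibgoberWood X C → LibgoberWood Y D →
        48 * (((X.h 1 1 : ℤ) - Y.h 1 1) - ((X.h 2 1 : ℤ) - Y.h 2 1)) = C - D ∧
        ((∃ l, Tower l C ∧ Tower l D) → X.h 1 1 = Y.h 1 1 ∨ X.h 2 1 = Y.h 2 1 →
          ∀ p q : ℤ, X.h p q = Y.h p q)) := by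
  refine ⟨fun n X Y hX hY q => h_zero_q pos Φ φ' low low' κ hX hY q,
    fun X Y hX hY ⟨Ψ⟩ => ?_, fun X Y hX hY ⟨Ψ⟩ => ?_⟩
  · have h0 := h_zero_q pos Φ φ' low low' κ hX hY
    refine ⟨five_off Ψ h0, fun C D hC hD => ⟨five_diag Ψ h0 C D hC hD, ?_⟩⟩
    rintro ⟨l, h1, h2⟩
    have e : (C : ℚ) = D := h1.unique h2
    have e' : C = D := by exact_mod_cast e
    subst e'
    exact five_all Ψ h0 C hC hD
  · have h0 := h_zero_q pos Φ φ' low low' κ hX hY
    refine ⟨six_off Ψ h0, fun C D hC hD => ⟨six_diag Ψ h0 C D hC hD, ?_⟩⟩
    rintro ⟨l, h1, h2⟩ h
    have e : (C : ℚ) = D := h1.unique h2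
    have e' : C = D := by exact_mod_cast e
    subst e'
    exact six_all Ψ h0 C hC hD h

end Pool.Agent.Results.MP_b4fe5e_ag.SemiampleCanonicalClass
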